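import Pool.Agent.Helper2.KZ.EN

/-!
# Normal subgroups `ℤ²` of infinite index
-/

set_option autoImplicit false
set_option maxHeartbeats 4000000

namespace Pool.Agent.Helper2.UN

open Pool.Agent.Helper52.Wq2 Pool.Agent.Helper61.NW
open Pool.Agent.Helper35.NW (tr mem_tr tr_conn tr_fin exists_conn exists_conn_fin union_chain
  exists_far)
open Pool.Agent.Helper74.NW (Rel)
open Pool.Agent.Helper2.KZ (conn_R conn_R')

universe u

section
variable {Γ : Type u} [Group Γ] {a b : Γ}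

theorem comm_pow (hab : a * b = b * a) (i j : ℤ) : a ^ i * b ^ j = b ^ j * a ^ i :=
  ((show Commute a b from hab).zpow_zpow i j).eq

theorem mul_rep (hab : a * b = b * a) (i j i' j' : ℤ) :
    a ^ i * b ^ j * (a ^ i' * b ^ j') = a ^ (i + i') * b ^ (j + j') := by
  rw [zpow_add, zpow_add, mul_assoc, ← mul_assoc (b ^ j), ← comm_pow hab i' j]
  simp only [mul_assoc]

theorem inv_rep (hab : a * b = b * a) (i j : ℤ) :
    (a ^ i * b ^ j)⁻¹ = a ^ (-i) * b ^ (-j) := by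
  rw [mul_inv_rev, zpow_neg, zpow_neg, ← zpow_neg b, ← zpow_neg a, comm_pow hab]

theorem rep (hab : a * b = b * a) {x : Γ} (hx : x ∈ Subgroup.closure {a, b}) :
    ∃ i j : ℤ, x = a ^ i * b ^ j := by
  induction hx using Subgroup.closure_induction with
  | mem y hy =>
    rcases hy with rfl | hy
    · exact ⟨1, 0, by rw [zpow_one, zpow_zero, mul_one]⟩
    · rw [Set.mem_singleton_iff] at hy
      exact ⟨0, 1, by rw [hy, zpow_one, zpow_zero, one_mul]⟩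
  | one => exact ⟨0, 0, by rw [zpow_zero, zpow_zero, mul_one]⟩
  | mul y z _ _ hy hz =>
    obtain ⟨i, j, rfl⟩ := hy
    obtain ⟨i', j', rfl⟩ := hz
    exact ⟨_, _, mul_rep hab i j i' j'⟩
  | inv y _ hy =>
    obtain ⟨i, j, rfl⟩ := hy
    exact ⟨_, _, inv_rep hab i j⟩

theorem mem_cl (i j : ℤ) : a ^ i * b ^ j ∈ Subgroup.closure {a, b} :=
  Subgroup.mul_mem _ (Subgroup.zpow_mem _ (Subgroup.subset_closure (by simp)) i)
    (Subgroup.zpow_mem _ (Subgroup.subset_closure (by simp)) j)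

theorem diff (hab : a * b = b * a) {i j i' j' : ℤ} {q p : Γ}
    (h : a ^ i * b ^ j * q = a ^ i' * b ^ j' * p) :
    a ^ (i - i') * b ^ (j - j') = p * q⁻¹ := by
  have h1 : a ^ (i - i') * b ^ (j - j') = (a ^ i' * b ^ j')⁻¹ * (a ^ i * b ^ j) := by
    rw [inv_rep hab, mul_rep hab]
    congr 2 <;> ring
  rw [h1]
  have h2 : a ^ i * b ^ j = a ^ i' * b ^ j' * p * q⁻¹ := by rw [← h, mul_inv_cancel_right]
  rw [h2]
  group

theorem bdd (hab : a * b = b * a) (hind : ∀ i j : ℤ, a ^ i * b ^ j = 1 → i = 0 ∧ j = 0)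
    (F : Set Γ) (hF : F.Finite) : ∃ L : ℤ, 0 ≤ L ∧ ∀ i j : ℤ, a ^ i * b ^ j ∈ F → |j| ≤ L := by
  have hJ : {j : ℤ | ∃ i : ℤ, a ^ i * b ^ j ∈ F}.Finite := by
    have hsub : {j : ℤ | ∃ i : ℤ, a ^ i * b ^ j ∈ F} ⊆
        ⋃ f ∈ F, {j : ℤ | ∃ i : ℤ, a ^ i * b ^ j = f} := by
      rintro j ⟨i, hi⟩
      exact Set.mem_biUnion hi ⟨i, rfl⟩
    refine Set.Finite.subset ?_ hsub
    refine hF.biUnion fun f _ => Set.Subsingleton.finite ?_
    rintro j ⟨i, hi⟩ j' ⟨i', hi'⟩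
    have h1 : a ^ i * b ^ j * 1 = a ^ i' * b ^ j' * 1 := by rw [hi, hi']
    have h2 := diff hab h1
    rw [inv_one, mul_one] at h2
    have h3 := (hind _ _ h2).2
    omega
  obtain ⟨M, hM⟩ := (hJ.image (fun j : ℤ => |j|)).bddAbove
  refine ⟨max 0 M, le_max_left _ _, ?_⟩
  intro i j hij
  exact (hM ⟨j, ⟨i, hij⟩, rfl⟩).trans (le_max_right _ _)

end

theorem u5 (Γ : Type u) [Group Γ] (a b : Γ) (hab : a * b = b * a)
    (hind : ∀ i j : ℤ, a ^ i * b ^ j = 1 → i = 0 ∧ j = 0)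
    (hN : (Subgroup.closure {a, b}).Normal) (hI : ¬ (Subgroup.closure {a, b}).FiniteIndex)
    (S : Set Γ) (hS : IsGen S) : KN (cay S) := by
  obtain ⟨P, hPf, hPc, hP1, hPs⟩ := exists_conn_fin hS {a, b} ((Set.finite_singleton _).insert _)
  have hPa : a ∈ P := hPs (by simp)
  have hPb : b ∈ P := hPs (by simp)
  obtain ⟨y, hy⟩ := exists_far (Subgroup.closure {a, b}) hI
    (Set.image2 (fun p p' => p * p'⁻¹) P P) (hPf.image2 _ hPf)
  obtain ⟨c, hcf, hcc, hc1, hcy⟩ := exists_conn hS y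
  obtain ⟨L, hL0, hL⟩ := bdd hab hind (Set.image2 (fun p q => p * q⁻¹) P (P ∪ c))
    (hPf.image2 _ (hPf.union hcf))
  obtain ⟨K, hK⟩ : ∃ K : ℤ, K = L + 1 := ⟨_, rfl⟩
  have hK0 : 0 < K := by omega
  have hgap : ∀ i j : ℕ, i ≠ j → K ≤ |K * (i : ℤ) - K * (j : ℤ)| := by
    intro i j hij
    rw [← mul_sub, abs_mul, abs_of_pos hK0]
    have h1 : 0 < |(i : ℤ) - j| :=
      abs_pos.2 (sub_ne_zero.2 (show (i : ℤ) ≠ j by exact_mod_cast hij))
    nlinarith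
  let R : ℤ → Set Γ := fun j => {x | ∃ i : ℤ, ∃ p ∈ P, x = a ^ i * b ^ j * p}
  let HP : Set Γ := {x | ∃ j : ℤ, x ∈ R j}
  have hRc : ∀ j, Conn (cay S) (R j) := by
    intro j
    have e : R j = ⋃ i : ℤ, tr (a ^ i * b ^ j) P := by
      ext x
      rw [Set.mem_iUnion]
      constructor
      · rintro ⟨i, p, hp, rfl⟩
        exact ⟨i, by rw [mem_tr, inv_mul_cancel_left]; exact hp⟩
      · rintro ⟨i, hi⟩
        exact ⟨i, _, hi, by rw [mul_inv_cancel_left]⟩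
    rw [e]
    refine union_chain _ (fun i => tr_conn hS _ hPc) ?_
    intro i
    refine ⟨a ^ i * b ^ j * a, by rw [mem_tr, inv_mul_cancel_left]; exact hPa, ?_⟩
    rw [mem_tr]
    have e2 : a ^ i * b ^ j * a = a ^ (i + 1) * b ^ j := by
      have := mul_rep hab i j 1 0
      rw [zpow_one, zpow_zero, mul_one, add_zero] at this
      exact this
    rw [e2, inv_mul_cancel]
    exact hP1
  have hRb : ∀ j, a ^ (0 : ℤ) * b ^ j * b ∈ R j := fun j => ⟨0, b, hPb, rfl⟩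
  have hR1 : ∀ i j : ℤ, a ^ i * b ^ j ∈ R j := fun i j => ⟨i, 1, hP1, by rw [mul_one]⟩
  have hHPc : Conn (cay S) HP := by
    have e : HP = ⋃ j : ℤ, R j := by
      ext x
      rw [Set.mem_iUnion]
      exact Iff.rfl
    rw [e]
    refine union_chain _ hRc ?_
    intro j
    refine ⟨a ^ (0 : ℤ) * b ^ j * b, hRb j, ?_⟩
    have e2 : a ^ (0 : ℤ) * b ^ j * b = a ^ (0 : ℤ) * b ^ (j + 1) := by
      rw [mul_assoc, ← zpow_add_one]
    rw [e2]
    exact hR1 0 (j + 1)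
  -- the second level
  have hdisj : ∀ x, x ∈ HP → x ∉ tr y HP := by
    rintro x ⟨j, i, p, hp, rfl⟩ ⟨j', i', p', hp', h⟩
    have hf : p * p'⁻¹ ∈ Set.image2 (fun p p' => p * p'⁻¹) P P := ⟨p, hp, p', hp', rfl⟩
    have h1 : (p * p'⁻¹) * (a ^ i' * b ^ j')⁻¹ * (p * p'⁻¹)⁻¹ ∈ Subgroup.closure {a, b} :=
      hN.conj_mem _ (Subgroup.inv_mem _ (mem_cl i' j')) _
    refine hy _ (Subgroup.mul_mem _ (mem_cl i j) h1) _ hf ?_
    have h2 : a ^ i * b ^ j * p = y * (a ^ i' * b ^ j' * p') := by rw [← h, mul_inv_cancel_left]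
    have h3 : y = a ^ i * b ^ j * p * (a ^ i' * b ^ j' * p')⁻¹ := by
      rw [h2, mul_inv_cancel_right]
    rw [h3]
    group
  have hbY : ∀ n : ℤ, b ^ n * y ∈ tr y HP := by
    intro n
    rw [mem_tr]
    have h1 : y⁻¹ * b ^ n * (y⁻¹)⁻¹ ∈ Subgroup.closure {a, b} := by
      have := mem_cl (a := a) (b := b) 0 n
      rw [zpow_zero, one_mul] at this
      exact hN.conj_mem _ this _
    rw [inv_inv] at h1
    obtain ⟨i, j, hij⟩ := rep hab h1
    refine ⟨j, ?_⟩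
    rw [← mul_assoc, hij]
    exact hR1 i j
  let T : ℕ → Set Γ := fun i => R (K * (i : ℤ))
  have hTHP : ∀ i, T i ⊆ HP := fun i x hx => ⟨_, hx⟩
  have hx : ∀ i : ℕ, b ^ (K * (i : ℤ)) ∈ T i := by
    intro i
    exact ⟨0, 1, hP1, by rw [zpow_zero, one_mul, mul_one]⟩
  refine Pool.Agent.Helper74.NW.kn_of (Pool.Agent.Helper74.NW.combine a ?_ T
    (fun i => b ^ (K * (i : ℤ))) hx ?_ ?_ ?_ ?_)
  · intro n hn h
    have := (hind n 0 (by rw [zpow_natCast, h, zpow_zero, mul_one])).1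
    omega
  · intro i y hy
    exact conn_R (hRc _) (hx i) hy
  · intro i n x
    constructor
    · rintro ⟨i', p, hp, h⟩
      refine ⟨-(n : ℤ) + i', p, hp, ?_⟩
      rw [zpow_add, mul_assoc, mul_assoc, ← mul_assoc (a ^ i'), ← h, zpow_neg, zpow_natCast,
        inv_mul_cancel_left]
    · rintro ⟨i', p, hp, rfl⟩
      refine ⟨(n : ℤ) + i', p, hp, ?_⟩
      rw [zpow_add, zpow_natCast]
      simp only [mul_assoc]
  · intro i j hij
    rw [Set.disjoint_left]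
    rintro x ⟨i1, p1, hp1, rfl⟩ ⟨i2, p2, hp2, h⟩
    have h1 := hL _ _ (by rw [diff hab h]; exact ⟨p2, hp2, p1, Or.inl hp1, rfl⟩)
    have h2 := hgap i j hij
    omega
  · intro i j hij
    let Av : Set Γ := {x | ∀ k, k ≠ i → k ≠ j → x ∉ T k}
    have hc : ∀ i k : ℕ, k ≠ i → ∀ x ∈ tr (b ^ (K * (i : ℤ))) c, x ∉ T k := by
      rintro i k hki x hx' ⟨i2, p, hp, h⟩
      have e : a ^ (0 : ℤ) * b ^ (K * (i : ℤ)) * ((b ^ (K * (i : ℤ)))⁻¹ * x) =
          a ^ i2 * b ^ (K * (k : ℤ)) * p := by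
        rw [zpow_zero, one_mul, mul_inv_cancel_left, h]
      have h1 := hL _ _ (by rw [diff hab e]; exact ⟨p, hp, _, Or.inr hx', rfl⟩)
      have h2 := hgap i k (Ne.symm hki)
      omega
    have hci : tr (b ^ (K * (i : ℤ))) c ⊆ Av := fun x hx' k hki _ => hc i k hki x hx'
    have hcj : tr (b ^ (K * (j : ℤ))) c ⊆ Av := fun x hx' k _ hkj => hc j k hkj x hx'
    have hY : tr y HP ⊆ Av := fun x hx' k _ _ hk => hdisj x (hTHP k hk) hx'
    have m1 : ∀ i : ℕ, b ^ (K * (i : ℤ)) ∈ tr (b ^ (K * (i : ℤ))) c := by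
      intro i
      rw [mem_tr, inv_mul_cancel]
      exact hc1
    have m2 : ∀ i : ℕ, b ^ (K * (i : ℤ)) * y ∈ tr (b ^ (K * (i : ℤ))) c := by
      intro i
      rw [mem_tr, inv_mul_cancel_left]
      exact hcy
    have hpath : Relation.ReflTransGen (Rel (cay S) Av) (b ^ (K * (i : ℤ)))
        (b ^ (K * (j : ℤ))) :=
      ((conn_R' (tr_conn hS _ hcc) hci (m1 i) (m2 i)).trans
        (conn_R' (tr_conn hS _ hHPc) hY (hbY _) (hbY _))).trans
        (conn_R' (tr_conn hS _ hcc) hcj (m2 j) (m1 j))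
    obtain ⟨E', h1, h2, -, h3⟩ := Pool.Agent.Helper74.NW.Rel.finite hpath (hci (m1 i))
    refine ⟨E', h1, h3, ?_⟩
    intro k' hki hkj
    rw [Set.disjoint_left]
    intro y hy
    exact h2 hy k' hki hkj

end Pool.Agent.Helper2.UN
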